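import Pool.Agent.U173.SF.Defs

/-!
# The cohomology of the function fields of products of varieties over finite fields: definitions
-/

set_option autoImplicit false

open Polynomial CategoryTheory AlgebraicGeometry

namespace Pool.Agent.U173.FG

open Pool.Agent.H914 Pool.Agent.H914.VarClass Pool.Agent.H914.VarClass.Obj Pool.Agent.W492.BB
  Pool.Agent.W484.CK Pool.Agent.U231.FR.Base

variable {κ : Type} [Field κ] {𝒱 : VarClass κ} {A : TheoryData.{0, 0, 0} 𝒱 ℚ} {K : Type}
  [Field K]

/-- The cohomology of the function fields: for every variety `X` in `𝒱` the space `M X`, the sum of the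
cohomology groups `H^i(F_0 X)`, the inductive limits of the cohomology groups of the nonempty open
subvarieties of `X`; the operation of the Frobenius on it; the restriction `res` from the cohomology
of `X`; and the pull-back along the projections from `X × Y` to `Y`, which are dominant. -/
structure GenericData (H : WeilTheoryData.{0, 0, 0} A K) where
  /-- the cohomology of the function field of `X` -/
  M : 𝒱.Obj → Type
  [group : ∀ X, AddCommGroup (M X)]
  [module : ∀ X, Module K (M X)]
  /-- the Frobenius -/
  frob : ∀ X, M X →ₗ[K] M X
  /-- the restriction to the generic point -/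
  res : ∀ X, H.A X →ₗ[K] M X
  /-- the pull-back along the projection from `X × Y` to `Y` -/
  pull : ∀ X Y : 𝒱.Obj, M Y →ₗ[K] M (X.prod Y)

attribute [instance] GenericData.group GenericData.module

variable {H : WeilTheoryData.{0, 0, 0} A K}

/-- The restriction is compatible with the Frobenius endomorphisms `F X`. -/
def FrobeniusRestricts (T : GenericData H) (F : ∀ X : 𝒱.Obj, X ⟶ X) : Prop :=
  ∀ X a, T.frob X (T.res X a) = T.res X (H.up (F X) a)

/-- The kernel of the restriction is an ideal (the restriction is a homomorphism of rings). -/
def KernelIsIdeal (T : GenericData H) : Prop :=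
  ∀ X a b, T.res X a = 0 → T.res X (H.mul a b) = 0

/-- The classes of cycles of positive codimension vanish on open subvarieties, so at the generic
point. -/
def CyclesVanish (T : GenericData H) : Prop :=
  ∀ X (n : ℕ) (D : A.A X), 0 < n → A.Deg n D → T.res X (H.cl D) = 0

/-- The restriction is compatible with the pull-backs along the projections. -/
def PullBacksRestrict (T : GenericData H) : Prop :=
  ∀ (X Y : 𝒱.Obj) (b : H.A Y), T.pull X Y (T.res Y b) = T.res (X.prod Y) (H.up (snd X Y) b)

/-- The usual properties: the restriction is compatible with the Frobenius endomorphisms `F X`, with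
products and with the pull-backs; the classes of cycles of positive codimension vanish; and the
pull-backs from `Y` to `X × Y` are injective (they have left inverses, given by closed points
on `X`). -/
structure IsGeneric (T : GenericData H) (F : ∀ X : 𝒱.Obj, X ⟶ X) : Prop where
  frobenius : FrobeniusRestricts T F
  ideal : KernelIsIdeal T
  cycles : CyclesVanish T
  pullbacks : PullBacksRestrict T
  injective : ∀ X Y, Function.Injective (T.pull X Y)

variable (T : GenericData H)

/-- `y` is an element of the pure part of `H^(2 n)(F_0 X)(n)` which is invariant under the Galois group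
of the field with `q` elements: `y` is the restriction of a class in `H^(2 n)(X)`, and the Frobenius
maps `y` to `q ^ n y`. -/
def IsInvariantClass (q : ℕ) (X : 𝒱.Obj) (n : ℕ) (y : T.M X) : Prop :=
  (∃ a, H.Deg (2 * n) a ∧ y = T.res X a) ∧ T.frob X y = (q : K) ^ n • y

/-- The pull-back from the function field of `Z` to the one of the product of `Z` and the `X i`. -/
noncomputable def fromBase {I : Type} (X : I → 𝒱.Obj) (Z : 𝒱.Obj) :
    ∀ l : List I, T.M Z →ₗ[K] T.M (productOf X Z l)
  | [] => LinearMap.id
  | i :: l => (T.pull (X i) (productOf X Z l)).comp (fromBase X Z l)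

/-- Let `V` be the product of `Z` and the `X i`, for `i` in the list `l`. The pull-back is a bijection
from the invariants in (the pure part of) `H^(2 n)(F_0 Z)(n)` to those in `H^(2 n)(F_0 V)(n)`. -/
def InvariantsFromBase (q : ℕ) {I : Type} (X : I → 𝒱.Obj) (Z : 𝒱.Obj) (l : List I) (n : ℕ) :
    Prop :=
  (∀ y, IsInvariantClass T q Z n y →
    IsInvariantClass T q (productOf X Z l) n (fromBase T X Z l y)) ∧
  ∀ y, IsInvariantClass T q (productOf X Z l) n y →
    ∃! y', IsInvariantClass T q Z n y' ∧ y = fromBase T X Z l y'

/-- The question for the function field of `X` in degree `2 n`, twist `n`, `n > 0` (where the higher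
Chow group `CH^n(Spec κ̄(X), 0)` is zero): there are no invariants besides zero in (the pure part
of) `H^(2 n)(F_0 X)(n)`. -/
def HasNoInvariants (q : ℕ) (X : 𝒱.Obj) (n : ℕ) : Prop :=
  ∀ y, IsInvariantClass T q X n y → y = 0

end Pool.Agent.U173.FG
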