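import Pool.Agent.W484.CK.KunnethEig
import Pool.Agent.U173.SF.Sys
import Pool.Agent.U173.FG.Defs

/-!
# The cohomology of the function fields of products of varieties over finite fields
-/

set_option autoImplicit false
set_option linter.unusedSectionVars false

open Polynomial CategoryTheory AlgebraicGeometry
open scoped TensorProduct

namespace Pool.Agent.U173.FG

open Pool.Agent.H914 Pool.Agent.H914.VarClass Pool.Agent.H914.VarClass.Obj Pool.Agent.W492.BB
  Pool.Agent.W484.CK Pool.Agent.U231.FR.Base Pool.Agent.U173.SL Pool.Agent.TH121.KT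
  Pool.Agent.U173.PS Pool.Agent.U173.SF Pool.Agent.N876.CG

variable {κ : Type} [Field κ] {𝒱 : VarClass κ} {A : TheoryData.{0, 0, 0} 𝒱 ℚ} [IsChow A]
  {K : Type} [Field K] [IsAlgClosed K] [CharZero K] {H : WeilTheoryData.{0, 0, 0} A K} [IsWeil H]
  {T : GenericData H} {F : ∀ X : 𝒱.Obj, X ⟶ X} {q : ℕ} {V Y : 𝒱.Obj}

/-- an eigenvector and a polynomial in an endomorphism -/
theorem aeval_eigen {M : Type} [AddCommGroup M] [Module K M] {f : Module.End K M} {μ : K} {y : M}
    (hy : f y = μ • y) (P : K[X]) : aeval f P y = P.eval μ • y := by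
  have hpow : ∀ n : ℕ, (f ^ n) y = μ ^ n • y := by
    intro n
    induction n with
    | zero => rw [pow_zero, pow_zero, Module.End.one_apply, one_smul]
    | succ n ih => rw [pow_succ', Module.End.mul_apply, ih, map_smul, hy, smul_smul, ← pow_succ]
  induction P using Polynomial.induction_on' with
  | add P Q hP hQ => rw [map_add, LinearMap.add_apply, hP, hQ, eval_add, add_smul]
  | monomial n a =>
    rw [aeval_monomial, eval_monomial, Module.End.mul_apply, hpow, Module.algebraMap_end_apply,
      smul_smul]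

/-- compatible endomorphisms and polynomials -/
theorem aeval_comm {M N : Type} [AddCommGroup M] [Module K M] [AddCommGroup N] [Module K N]
    {f : Module.End K M} {g : Module.End K N} {r : M →ₗ[K] N} (h : ∀ x, r (f x) = g (r x))
    (P : K[X]) (x : M) : r (aeval f P x) = aeval g P (r x) := by
  have hpow : ∀ (n : ℕ) x, r ((f ^ n) x) = (g ^ n) (r x) := by
    intro n
    induction n with
    | zero => intro x; rfl
    | succ n ih => intro x; rw [pow_succ, Module.End.mul_apply, ih, h, pow_succ, Module.End.mul_apply]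
  induction P using Polynomial.induction_on' with
  | add P Q hP hQ => rw [map_add, map_add, LinearMap.add_apply, LinearMap.add_apply, map_add, hP, hQ]
  | monomial n a =>
    rw [aeval_monomial, aeval_monomial, Module.End.mul_apply, Module.End.mul_apply,
      Module.algebraMap_end_apply, Module.algebraMap_end_apply, map_smul, hpow]

/-- a polynomial in an endomorphism preserves stable subspaces -/
theorem aeval_mem {M : Type} [AddCommGroup M] [Module K M] {f : Module.End K M} {W : Submodule K M}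
    (h : ∀ x ∈ W, f x ∈ W) (P : K[X]) {x : M} (hx : x ∈ W) : aeval f P x ∈ W := by
  have hpow : ∀ n : ℕ, (f ^ n) x ∈ W := by
    intro n
    induction n with
    | zero => exact hx
    | succ n ih => rw [pow_succ', Module.End.mul_apply]; exact h _ ih
  induction P using Polynomial.induction_on' with
  | add P Q hP hQ => rw [map_add, LinearMap.add_apply]; exact Submodule.add_mem _ hP hQ
  | monomial n a =>
    rw [aeval_monomial, Module.End.mul_apply, Module.algebraMap_end_apply]
    exact Submodule.smul_mem _ _ (hpow n)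

/-- **Lifting of eigenvectors to generalised eigenvectors** -/
theorem exists_gen {M N : Type} [AddCommGroup M] [Module K M] [Module.Finite K M]
    [AddCommGroup N] [Module K N] {f : Module.End K M} {g : Module.End K N} {r : M →ₗ[K] N}
    (h : ∀ x, r (f x) = g (r x)) {W : Submodule K M} (hW : ∀ x ∈ W, f x ∈ W) {μ : K} {a : M}
    (ha : a ∈ W) (hμ : g (r a) = μ • r a) :
    ∃ (m : ℕ) (b : M), b ∈ W ∧ r b = r a ∧ Pool.Agent.W484.CH.op f μ m b = 0 := by
  obtain ⟨P, hP, hdvd⟩ := Polynomial.exists_eq_pow_rootMultiplicity_mul_and_not_dvd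
    (LinearMap.charpoly f) (LinearMap.charpoly_monic f).ne_zero μ
  have hPμ : P.eval μ ≠ 0 := fun h0 => hdvd (dvd_iff_isRoot.2 h0)
  refine ⟨rootMultiplicity μ (LinearMap.charpoly f), (P.eval μ)⁻¹ • aeval f P a,
    Submodule.smul_mem _ _ (aeval_mem hW P ha), ?_, ?_⟩
  · rw [map_smul, aeval_comm h, aeval_eigen hμ, smul_smul, inv_mul_cancel₀ hPμ, one_smul]
  · have h1 := LinearMap.aeval_self_charpoly f
    rw [hP, map_mul, map_pow, map_sub, aeval_X, aeval_C] at h1
    have h2 := LinearMap.congr_fun h1 a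
    rw [Module.End.mul_apply] at h2
    unfold Pool.Agent.W484.CH.op
    rw [map_smul]
    have h3 : (f - μ • (1 : Module.End K M)) = f - algebraMap K (Module.End K M) μ := by
      rw [Algebra.algebraMap_eq_smul_one]
    rw [h3]
    change (P.eval μ)⁻¹ • ((f - algebraMap K (Module.End K M) μ) ^ _) ((aeval f P) a) = 0
    rw [h2]
    exact smul_zero _

section step

variable (hT : IsGeneric T F) {Z : 𝒱.Obj}

include hT

theorem res_pull_zero {b : H.A Y} (h0 : T.res Y b = 0) :
    T.res (V.prod Y) (H.pull (snd V Y) b) = 0 := by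
  have h1 := hT.pullbacks V Y b
  rw [h0, map_zero] at h1
  exact h1.symm

/-- the exterior product with a cycle of positive codimension -/
theorem res_ext_zero {n : ℕ} (hn : 0 < n) {D : A.A V} (hD : A.Deg n D) (b : H.A Y) :
    T.res (V.prod Y) (H.ext (H.cl D) b) = 0 := by
  have h1 : H.pull (fst V Y) (H.cl D) = H.cl (A.pull (fst V Y) D) := (H.cl_pull _ _).symm
  rw [TheoryData.ext, h1]
  exact hT.ideal _ _ _ (hT.cycles _ n _ hn (A.pull_mem (fst V Y) hD))

/-- **One step.** -/
theorem step (hS : Pool.Agent.W484.CK.IsStandard H)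
    (hFp : F (V.prod Y) = prodMap (F V) (F Y)) {J : Type} [Fintype J] {deg : J → ℕ}
    {D E : J → A.A V} (hdual : Pool.Agent.W484.CH.IsDual V Y deg D E)
    (hN : ∀ n, AK H V n ≤ Submodule.span K {c | ∃ j, deg j = n ∧ c = H.cl (D j)}) (n : ℕ)
    (hmix : ∀ (m : ℕ) (w : H.A (V.prod Y)),
      Pool.Agent.W484.CH.op (Pool.Agent.W484.CH.frob H (F (V.prod Y))) ((q : K) ^ n) m w = 0 →
        w ∈ mixA H V Y) :
    (∀ y, IsInvariantClass T q Y n y → IsInvariantClass T q (V.prod Y) n (T.pull V Y y)) ∧
      ∀ y, IsInvariantClass T q (V.prod Y) n y →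
        ∃ y', IsInvariantClass T q Y n y' ∧ y = T.pull V Y y' := by
  have hfin : Module.Finite K (H.A (V.prod Y)) := hS.finite _
  have hcomm : ∀ b : H.A Y, H.pull (F (V.prod Y)) (H.pull (snd V Y) b) =
      H.pull (snd V Y) (H.pull (F Y) b) := by
    intro b
    rw [← H.pull_comp, ← H.pull_comp, hFp, prodMap_snd]
  have hfrob : ∀ b : H.A Y, T.frob (V.prod Y) (T.pull V Y (T.res Y b)) =
      T.pull V Y (T.frob Y (T.res Y b)) := by
    intro b
    rw [hT.pullbacks, hT.frobenius, hT.frobenius, hT.pullbacks]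
    exact congrArg _ (hcomm b)
  refine ⟨?_, ?_⟩
  · rintro _ ⟨⟨b, hb, rfl⟩, hy⟩
    refine ⟨⟨H.pull (snd V Y) b, H.pull_mem _ hb, hT.pullbacks V Y b⟩, ?_⟩
    rw [hfrob, hy, map_smul]
  · rintro _ ⟨⟨a, ha, rfl⟩, hy⟩
    obtain ⟨m, w, hw, hwa, hm⟩ := exists_gen
      (f := Pool.Agent.W484.CH.frob H (F (V.prod Y))) (g := T.frob (V.prod Y))
      (r := T.res (V.prod Y)) (W := H.gr (V.prod Y) (2 * (n : ℤ)))
      (fun x => (hT.frobenius _ x).symm) (fun x hx => H.pull_mem _ hx) ha hy
    have h1 := act_proj_mixA hdual hN (hmix m w hm)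
    have h2 := Pool.Agent.W484.CH.eq_sum_of_act h1
    have h3 : ∀ (j : J) (z : H.A Y), H.act (H.cl (Pool.Agent.W484.CH.extBy A Y (D j))) z =
        H.ext (H.cl (D j)) z := by
      intro j z
      have h4 : H.cl (Pool.Agent.W484.CH.extBy A Y (D j)) =
          Pool.Agent.W484.CH.extBy H.toTheoryData Y (H.cl (D j)) := by
        rw [Pool.Agent.W484.CH.extBy, Pool.Agent.W484.CH.extBy, H.cl_push, H.cl_pull]
      rw [h4, Pool.Agent.W484.CH.act_extBy]
    have h5 : ∀ (j : J) (x : H.A (V.prod Y)),
        H.act (H.cl (Pool.Agent.W484.CH.pairBy A Y (E j))) x =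
          H.push (snd V Y) (H.pull (fst V Y) (H.cl (E j)) * x) := by
      intro j x
      have h4 : H.cl (Pool.Agent.W484.CH.pairBy A Y (E j)) =
          Pool.Agent.W484.CH.pairBy H.toTheoryData Y (H.cl (E j)) := by
        rw [Pool.Agent.W484.CH.pairBy, Pool.Agent.W484.CH.pairBy, H.cl_push, H.cl_pull]
      rw [h4, Pool.Agent.W484.CH.act_pairBy]
    simp only [h3, h5] at h2
    -- the coefficients
    set c : J → H.A Y := fun j => H.push (snd V Y) (H.pull (fst V Y) (H.cl (E j)) * w) with hc
    have hcdeg : ∀ j, c j ∈ H.gr Y (2 * ((n : ℤ) - deg j)) := by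
      intro j
      have h6 := H.push_mem (snd V Y) (H.mul_mem
        (H.pull_mem (fst V Y) (H.cl_mem (hdual.right j))) hw)
      have h7 : 2 * ((V.dim : ℤ) - deg j) + 2 * (n : ℤ) +
          2 * ((Y.dim : ℤ) - ((V.prod Y).dim : ℤ)) = 2 * ((n : ℤ) - deg j) := by
        rw [Obj.dim_prod]
        push_cast
        ring
      rwa [h7] at h6
    have h8 : ∀ j, ∃ b : H.A Y, b ∈ H.gr Y (2 * (n : ℤ)) ∧
        T.res (V.prod Y) (H.ext (H.cl (D j)) (c j)) = T.pull V Y (T.res Y b) := by
      intro j
      rcases Nat.eq_zero_or_pos (deg j) with h9 | h9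
      · obtain ⟨r, hr⟩ := hS.chow_zero V (D j) (by
          have h10 := hdual.left j
          rw [h9] at h10
          exact h10)
        refine ⟨(r : K) • c j, ?_, ?_⟩
        · have h10 := hcdeg j
          rw [h9, Nat.cast_zero, sub_zero] at h10
          exact Submodule.smul_mem _ _ h10
        · rw [hT.pullbacks, hr, Pool.Agent.W484.CH.cl_smul, map_one]
          congr 1
          change H.pull (fst V Y) ((r : K) • 1) * H.pull (snd V Y) (c j) = _
          rw [map_smul, map_one, smul_mul_assoc, one_mul]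
          exact (map_smul (H.pull (snd V Y)) (r : K) (c j)).symm
      · refine ⟨0, Submodule.zero_mem _, ?_⟩
        rw [res_ext_zero hT h9 (hdual.left j), map_zero, map_zero]
    choose b hb hbr using h8
    have h9 : T.res (V.prod Y) a = T.pull V Y (T.res Y (∑ j, b j)) := by
      rw [← hwa, h2, map_sum, map_sum, map_sum]
      exact Finset.sum_congr rfl fun j _ => hbr j
    refine ⟨T.res Y (∑ j, b j), ⟨⟨_, Submodule.sum_mem _ fun j _ => hb j, rfl⟩, ?_⟩, h9⟩
    apply hT.injective V Y
    rw [← hfrob, ← h9, hy, map_smul, ← h9]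

end step

variable {I : Type} [LinearOrder I] {p m : ℕ} [Fact p.Prime] {ι : Qb →+* PadicAlgCl p}
  {M : IntermediateField ℚ Qb} {E L : I → IntermediateField ℚ Qb} {X : I → 𝒱.Obj} {Z : 𝒱.Obj}

theorem tw_eq' (l : List I) : productOf X Z l = tw X Z l := by
  induction l with
  | nil => rfl
  | cons i l ih =>
    change (X i).prod (productOf X Z l) = (X i).prod (tw X Z l)
    rw [ih]

/-- **The step in a family.** -/
theorem family_step (h : IsSeparatedFamily p m ι E M L H F X Z) (hT : IsGeneric T F) {i : I}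
    {l : List I} (hi : i ∉ l) (hl : l.Nodup) (n : ℕ) :
    (∀ y, IsInvariantClass T (p ^ m) (productOf X Z l) n y →
      IsInvariantClass T (p ^ m) (productOf X Z (i :: l)) n (T.pull (X i) _ y)) ∧
      ∀ y, IsInvariantClass T (p ^ m) (productOf X Z (i :: l)) n y →
        ∃ y', IsInvariantClass T (p ^ m) (productOf X Z l) n y' ∧ y = T.pull (X i) _ y' := by
  classical
  obtain ⟨S, hC⟩ := cr_of h (B := {1}) (by
    intro ρ hρ
    rw [Set.mem_singleton_iff.1 hρ]
    exact hasSlopesIn_one M)
  have hfA := hC.std.finite (X i)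
  have hres1 : ∀ α ∈ S i, ∀ w : ℕ, α ≠ ((p ^ m : ℕ) : K) ^ w := fun α hα w hw => by
      refine hC.res1 {i} (Finset.singleton_nonempty i) (fun _ => α) ?_ 1 rfl 0 1 w one_pos ?_
      · intro i' hi'
        rw [Finset.mem_singleton.1 hi']
        exact hα
      · rw [Finset.prod_singleton, pow_zero, mul_one, mul_one, hw, pow_one, one_mul]
  have hnd := nondeg_of hfA (hC.frob (X i)) hC.one_lt (hC.cg i) hres1
  have hres : ∀ α ∈ S i, ∀ β, (Pool.Agent.W484.CH.frob H (F (tw X Z l))).HasEigenvalue β →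
      α * β ≠ ((p ^ m : ℕ) : K) ^ (n : ℤ) := by
    intro α hα γ hγ heq
    obtain ⟨I', α', β, e, hI, hα', hβ, rfl⟩ := hC.eig_tw l hl γ hγ
    have hiI : i ∉ I' := fun h0 => hi (hI i h0)
    refine hC.res (insert i I') (Finset.insert_nonempty i I') (Function.update α' i α) ?_ (β * 1)
      ⟨β, 1, hβ, rfl, rfl⟩ e 1 n one_pos ?_
    · intro i' hi'
      rcases Finset.mem_insert.1 hi' with rfl | hi'
      · rw [Function.update_self]; exact hα
      · rw [Function.update_of_ne (ne_of_mem_of_not_mem hi' hiI)]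
        exact hα' i' hi'
    · rw [Finset.prod_insert hiI, Function.update_self,
        Finset.prod_congr rfl fun i' hi' =>
          Function.update_of_ne (ne_of_mem_of_not_mem hi' hiI) α α', pow_one, one_mul]
      rw [zpow_natCast] at heq
      rw [← heq]
      ring
  obtain ⟨J, hJ, deg, D, E', hdual, hN⟩ := exists_dual hC.std hnd (tw X Z l)
  have key : ∀ W : 𝒱.Obj, W = tw X Z l →
      (∀ y, IsInvariantClass T (p ^ m) W n y →
        IsInvariantClass T (p ^ m) ((X i).prod W) n (T.pull (X i) W y)) ∧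
      ∀ y, IsInvariantClass T (p ^ m) ((X i).prod W) n y →
        ∃ y', IsInvariantClass T (p ^ m) W n y' ∧ y = T.pull (X i) W y' := by
    rintro W rfl
    refine step hT h.standard (h.product _ _) hdual hN n fun m' w hw => ?_
    rw [h.product] at hw
    exact mem_mixA (πZ := F (tw X Z l)) hC.std (hC.frob (X i)) hC.one_lt (hC.cg i) (n : ℤ) hres m' w
      (by rw [zpow_natCast]; exact hw)
  exact key _ (tw_eq' l)

theorem fromBase_injective (hT : IsGeneric T F) (l : List I) :
    Function.Injective (fromBase T X Z l) := by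
  induction l with
  | nil => exact fun a b h => h
  | cons i l ih => exact (hT.injective (X i) (productOf X Z l)).comp ih

/-- **The theorem.** -/
theorem main (h : IsSeparatedFamily p m ι E M L H F X Z) (hT : IsGeneric T F) {l : List I}
    (hl : l.Nodup) (n : ℕ) :
    InvariantsFromBase T (p ^ m) X Z l n ∧
      (HasNoInvariants T (p ^ m) (productOf X Z l) n ↔ HasNoInvariants T (p ^ m) Z n) := by
  have h0 : (∀ y, IsInvariantClass T (p ^ m) Z n y →
      IsInvariantClass T (p ^ m) (productOf X Z l) n (fromBase T X Z l y)) ∧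
      ∀ y, IsInvariantClass T (p ^ m) (productOf X Z l) n y →
        ∃ y', IsInvariantClass T (p ^ m) Z n y' ∧ y = fromBase T X Z l y' := by
    induction l with
    | nil => exact ⟨fun y hy => hy, fun y hy => ⟨y, hy, rfl⟩⟩
    | cons i l ih =>
      rw [List.nodup_cons] at hl
      obtain ⟨h1, h2⟩ := ih hl.2
      obtain ⟨h3, h4⟩ := family_step h hT hl.1 hl.2 n
      refine ⟨fun y hy => h3 _ (h1 y hy), fun y hy => ?_⟩
      obtain ⟨y₁, hy₁, rfl⟩ := h4 y hy
      obtain ⟨y₂, hy₂, rfl⟩ := h2 y₁ hy₁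
      exact ⟨y₂, hy₂, rfl⟩
  have hinj := fromBase_injective (X := X) (Z := Z) hT l
  refine ⟨⟨h0.1, fun y hy => ?_⟩, ?_, ?_⟩
  · obtain ⟨y', hy', rfl⟩ := h0.2 y hy
    exact ⟨y', ⟨hy', rfl⟩, fun z hz => hinj hz.2.symm⟩
  · intro h1 y hy
    apply hinj
    rw [map_zero]
    exact h1 _ (h0.1 y hy)
  · intro h1 y hy
    obtain ⟨y', hy', rfl⟩ := h0.2 y hy
    rw [h1 y' hy', map_zero]

end Pool.Agent.U173.FG
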